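import Pool.Agent.KTB.StmtsKB

set_option autoImplicit false

/-!
# Row RKB of squad KTB

Translation between the rank function of the relations and their nullities.
-/

namespace Pool.Agent.KTB.H64

open Finset Pool.Agent.KTB
open scoped Classical

variable {ι T : Type} [Fintype ι]

theorem biUnion_E (D : Dat ι T) (S : Finset ι) (C : Finset T) :
    C.biUnion (D.E S) = D.EK S C := by
  ext a
  simp only [Dat.E, Dat.EK, mem_biUnion, mem_filter]
  constructor
  · rintro ⟨k, hk, ha, hx⟩
    exact ⟨ha, k, hk, hx⟩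
  · rintro ⟨ha, k, hk, hx⟩
    exact ⟨k, hk, ha, hx⟩

theorem mem_R (D : Dat ι T) (S : Finset ι) (ρ : ι → ℚ) :
    ρ ∈ D.R S ↔ ρ ∈ D.rel ∧ ∀ a, a ∉ S → ρ a = 0 := Iff.rfl

theorem R_mono (D : Dat ι T) {A B : Finset ι} (h : A ⊆ B) {ρ : ι → ℚ} (hρ : ρ ∈ D.R A) :
    ρ ∈ D.R B := by
  rw [mem_R] at hρ ⊢
  exact ⟨hρ.1, fun a ha => hρ.2 a fun h' => ha (h h')⟩

theorem rkb (dim : DimStmt) : RkbStmt := by
  intro ι T _ D S
  obtain ⟨dA, -, dC, dD, dE⟩ := dim ι T D
  have hd : ∀ t ∈ S, D.rk S {t} = 1 ↔ t ∈ D.N S := by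
    intro t ht
    have h1 : D.nul (S \ {t}) ≤ D.nul S := dA _ _ sdiff_subset
    have h2 : D.nul S ≤ D.nul (S \ {t}) + 1 := by
      have h3 := dC (S \ {t}) t
      have h4 : insert t (S \ {t}) = S := by
        ext a
        simp only [mem_insert, mem_sdiff, mem_singleton]
        constructor
        · rintro (h | h)
          · exact h ▸ ht
          · exact h.1
        · intro h
          by_cases hat : a = t
          · exact Or.inl hat
          · exact Or.inr ⟨h, hat⟩
      rw [h4] at h3
      exact h3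
    have h3 := dD (S \ {t}) S sdiff_subset
    have h4 : (∀ ρ ∈ D.R S, ∀ b ∈ S, b ∉ S \ {t} → ρ b = 0) ↔ t ∉ D.N S := by
      simp only [Dat.N, mem_filter, not_and, not_exists, not_not]
      constructor
      · intro h _ ρ hρ
        exact h ρ hρ t ht (by simp)
      · intro h ρ hρ b hb hb'
        have hbt : b = t := by
          by_contra h5
          exact hb' (mem_sdiff.2 ⟨hb, by rwa [mem_singleton]⟩)
        rw [hbt]
        exact h ht ρ hρ
    unfold Dat.rk
    constructor
    · intro h
      by_contra h5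
      have h6 := h3.2 (h4.2 h5)
      omega
    · intro h
      have h5 : D.nul (S \ {t}) ≠ D.nul S := fun h6 => (h4.1 (h3.1 h6)) h
      omega
  refine ⟨fun C => biUnion_E D S C, fun K C => ?_, fun C t ht => ?_, hd, fun t ht y hy => ?_⟩
  · unfold Tgt
    rw [biUnion_E]
    have h1 : D.nul (S \ D.EK S C) ≤ D.nul S := dA _ _ sdiff_subset
    have h2 : rexc (D.E S) C = D.exc S C := rfl
    unfold Dat.rk
    rw [h2]
    constructor
    · rintro ⟨ha, hb, hc⟩
      exact ⟨ha, hb, by omega⟩
    · rintro ⟨ha, hb, hc⟩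
      exact ⟨ha, hb, by omega⟩
  · unfold Inc
    rw [biUnion_E]
    have h1 : D.nul (S \ D.EK S C) ≤ D.nul S := dA _ _ sdiff_subset
    have h2 : D.nul (S \ insert t (D.EK S C)) ≤ D.nul S := dA _ _ sdiff_subset
    have hsub : S \ insert t (D.EK S C) ⊆ S \ D.EK S C :=
      sdiff_subset_sdiff Subset.rfl (subset_insert _ _)
    have h3 := dD _ _ hsub
    unfold Dat.rk
    constructor
    · intro h
      have h4 : D.nul (S \ insert t (D.EK S C)) = D.nul (S \ D.EK S C) := by omega
      have h5 := h3.1 h4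
      intro ρ hρ
      by_cases htE : t ∈ D.EK S C
      · exact ((mem_R D _ ρ).1 hρ).2 t fun h6 => (mem_sdiff.1 h6).2 htE
      · exact h5 ρ hρ t (mem_sdiff.2 ⟨ht, htE⟩) fun h6 =>
          (mem_sdiff.1 h6).2 (mem_insert_self _ _)
    · intro h
      have h4 : D.nul (S \ insert t (D.EK S C)) = D.nul (S \ D.EK S C) := by
        refine h3.2 fun ρ hρ b hb hb' => ?_
        have hbt : b = t := by
          by_contra h5
          obtain ⟨h6, h7⟩ := mem_sdiff.1 hb
          refine hb' (mem_sdiff.2 ⟨h6, ?_⟩)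
          rw [mem_insert]
          rintro (h8 | h8)
          · exact h5 h8
          · exact h7 h8
        rw [hbt]
        exact h ρ hρ
      rw [h4]
  · have htS : t ∈ S := (mem_filter.1 ht).1
    have hyS : y ∈ S := (mem_filter.1 hy).1
    obtain ⟨ρ1, hρ1, hρ1y⟩ := (mem_filter.1 hy).2
    have h0 : D.rk S {t} = 1 := (hd t htS).2 ht
    have h1 : D.nul (S \ {t}) ≤ D.nul S := dA _ _ sdiff_subset
    have h2 : D.nul (S \ {t, y}) ≤ D.nul S := dA _ _ sdiff_subset
    have hsub : S \ {t, y} ⊆ S \ {t} :=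
      sdiff_subset_sdiff Subset.rfl (by intro a ha; rw [mem_singleton] at ha; rw [ha]; simp)
    have h3 := dD _ _ hsub
    unfold Dat.rk at h0 ⊢
    constructor
    · intro h
      have h4 : D.nul (S \ {t, y}) = D.nul (S \ {t}) := by omega
      have h5 := h3.1 h4
      have h6 : ∀ ρ ∈ D.R S, ρ t = 0 → ρ y = 0 := by
        intro ρ hρ hρt
        by_cases hyt : y = t
        · rw [hyt]
          exact hρt
        · have h7 : ρ ∈ D.R (S \ {t}) := by
            rw [mem_R] at hρ ⊢
            refine ⟨hρ.1, fun a ha => ?_⟩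
            by_cases haS : a ∈ S
            · have hat : a = t := by
                by_contra h8
                exact ha (mem_sdiff.2 ⟨haS, by rwa [mem_singleton]⟩)
              rw [hat]
              exact hρt
            · exact hρ.2 a haS
          refine h5 ρ h7 y (mem_sdiff.2 ⟨hyS, by rwa [mem_singleton]⟩) fun h8 => ?_
          exact (mem_sdiff.1 h8).2 (by simp)
      obtain ⟨c, hc⟩ := dE S t y h6
      refine mem_filter.2 ⟨hyS, c, ?_, hc⟩
      intro hc0
      apply hρ1y
      rw [hc ρ1 hρ1, hc0, zero_mul]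
    · intro h
      obtain ⟨-, c, -, hc⟩ := mem_filter.1 h
      have h4 : D.nul (S \ {t, y}) = D.nul (S \ {t}) := by
        refine h3.2 fun ρ hρ b hb hb' => ?_
        have hbt : b = y := by
          by_contra h5
          obtain ⟨h6, h7⟩ := mem_sdiff.1 hb
          refine hb' (mem_sdiff.2 ⟨h6, ?_⟩)
          rw [mem_insert, mem_singleton]
          rintro (h8 | h8)
          · exact h7 (mem_singleton.2 h8)
          · exact h5 h8
        rw [hbt, hc ρ (R_mono D sdiff_subset hρ)]
        have h9 : ρ t = 0 := ((mem_R D _ ρ).1 hρ).2 t fun h10 =>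
          (mem_sdiff.1 h10).2 (mem_singleton_self t)
        rw [h9, mul_zero]
      rw [h4]
      exact h0

end Pool.Agent.KTB.H64
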